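import Mathlib
import Pool.Agent.R821.SnfDefs

/-!
# csf-countability of the levels `A_n(X)` over Lašnev spaces
-/

set_option autoImplicit false

open Filter Topology

namespace Pool.Agent.Results.MP_1e4d5b_gt.CsfAllLevels

open Pool.Agent.R821

universe u v

/-- A Lašnev space: a Hausdorff space that is the image of a metrizable space under a closed continuous
surjection. -/
def IsLasnev (X : Type u) [TopologicalSpace X] : Prop :=
  T2Space X ∧ ∃ (M : Type v) (_ : TopologicalSpace M) (_ : TopologicalSpace.MetrizableSpace M)
    (f : M → X), Continuous f ∧ IsClosedMap f ∧ Function.Surjective f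

/-- **Positive answer to Q1 of MP_1e4d5b.** Let `X` be a Lašnev space. If `A_m(X)` is csf-countable for
some `m ≥ 2` (for instance `m = 4`), then `A_n(X)` is csf-countable for every `n`. -/
theorem result (X : Type u) [TopologicalSpace X] (hX : IsLasnev.{u, v} X) (m : ℕ) (hm : 2 ≤ m)
    (h : SN.CsfCountable (SN.An X m)) (n : ℕ) : SN.CsfCountable (SN.An X n) := by
  obtain ⟨hT2, M, tM, hM, f, hf, hfc, hfs⟩ := hX
  have hmet : MetricSpace M := TopologicalSpace.metrizableSpaceMetric M
  have hN : NormalSpace X := BS.normal_of_closed_map hf hfc hfs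
  have hT4 : T4Space X := { }
  have hseq : SequentialSpace X :=
    (hfc.isQuotientMap hf hfs).sequentialSpace
  exact SN.csf_main BS.bb_of_normal (SN.csf_mono hm h) n

end Pool.Agent.Results.MP_1e4d5b_gt.CsfAllLevels
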